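import Mathlib
import Pool.Agent.H74.LI.Targets

/-!
# MP_9f0eeb_nt, module ST: Stirling for a quotient of Gamma functions
-/

set_option autoImplicit false

open Complex MeasureTheory Set Filter Topology

namespace Pool.Agent.H27.LI

open Pool.Agent.H74.LI

theorem log_step {z : ℂ} {m : ℝ} (hz : z.im ≠ 0) (hm : 0 < m)
    (h : ∀ x : ℝ, 0 ≤ x → x ≤ 1 → m ≤ ‖z + x‖) :
    ‖Complex.log (z + 1) - Complex.log z - 1 / z‖ ≤ 1 / m ^ 2 := by
  obtain ⟨f, hf⟩ : ∃ f : ℝ → ℂ, f = fun x : ℝ => Complex.log (z + x) - x / z := ⟨_, rfl⟩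
  have hz0 : z ≠ 0 := by
    intro h0
    rw [h0] at hz
    exact hz rfl
  have hd : ∀ x : ℝ, HasDerivAt f (1 / (z + x) - 1 / z) x := by
    intro x
    have hs : z + (x : ℂ) ∈ slitPlane := by
      rw [Complex.mem_slitPlane_iff]
      right
      simpa using hz
    have h1 : HasDerivAt (fun x : ℝ => z + (x : ℂ)) 1 x := by
      have := (Complex.ofRealCLM.hasDerivAt (x := x)).const_add z
      simpa using this
    have h2 := (Complex.hasDerivAt_log hs).comp x h1
    have h3 : HasDerivAt (fun x : ℝ => (x : ℂ) / z) (1 / z) x := by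
      have := (Complex.ofRealCLM.hasDerivAt (x := x)).div_const z
      simpa using this
    rw [hf]
    have h4 := h2.sub h3
    have e : (z + (x : ℂ))⁻¹ * 1 - 1 / z = 1 / (z + x) - 1 / z := by rw [mul_one, one_div (z + (x : ℂ))]
    rw [e] at h4
    exact h4
  have hb : ∀ x ∈ Ico (0 : ℝ) 1, ‖1 / (z + x) - 1 / z‖ ≤ 1 / m ^ 2 := by
    intro x hx
    have h1 := h x hx.1 hx.2.le
    have h2 := h 0 le_rfl zero_le_one
    rw [Complex.ofReal_zero, add_zero] at h2
    have hzx : z + (x : ℂ) ≠ 0 := by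
      intro h0
      rw [h0, norm_zero] at h1
      linarith
    have e : 1 / (z + x) - 1 / z = -(x : ℂ) / ((z + x) * z) := by
      field_simp
      ring
    rw [e, norm_div, norm_neg, norm_mul, Complex.norm_real, Real.norm_eq_abs, abs_of_nonneg hx.1, sq]
    have h3 : 0 < ‖z + (x : ℂ)‖ := by linarith
    have h4 : 0 < ‖z‖ := by linarith
    refine div_le_div₀ zero_le_one hx.2.le (by positivity) ?_
    exact mul_le_mul h1 h2 hm.le h3.le
  have := norm_image_sub_le_of_norm_deriv_le_segment_01' (f := f)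
    (f' := fun x => 1 / (z + x) - 1 / z) (fun x _ => (hd x).hasDerivWithinAt) hb
  rw [hf] at this
  simp only [Complex.ofReal_one, Complex.ofReal_zero, add_zero, zero_div, sub_zero] at this
  have e : Complex.log (z + 1) - 1 / z - Complex.log z =
    Complex.log (z + 1) - Complex.log z - 1 / z := by ring
  rwa [e] at this

theorem log_lp {t : ℝ} (ht : 0 < t) :
    ‖Complex.log (lp t) - (Real.log t + Real.pi / 2 * I)‖ ≤ 1 / (2 * t) := by
  obtain ⟨f, hf⟩ : ∃ f : ℝ → ℂ, f = fun x : ℝ => Complex.log ((t : ℂ) * I - x / 2) := ⟨_, rfl⟩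
  have him : ∀ x : ℝ, ((t : ℂ) * I - x / 2).im = t := by
    intro x
    have : (t : ℂ) * I - x / 2 = ((-(x / 2) : ℝ) : ℂ) + t * I := by push_cast; ring
    rw [this]
    simp
  have hd : ∀ x : ℝ, HasDerivAt f (-(1 / 2) / ((t : ℂ) * I - x / 2)) x := by
    intro x
    have hs : (t : ℂ) * I - x / 2 ∈ slitPlane := by
      rw [Complex.mem_slitPlane_iff]
      right
      rw [him]
      exact ht.ne'
    have h1 : HasDerivAt (fun x : ℝ => (t : ℂ) * I - (x : ℂ) / 2) (-(1 / 2)) x := by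
      have := ((Complex.ofRealCLM.hasDerivAt (x := x)).div_const 2).const_sub ((t : ℂ) * I)
      simpa using this
    have h2 := (Complex.hasDerivAt_log hs).comp x h1
    rw [hf]
    have e : ((t : ℂ) * I - (x : ℂ) / 2)⁻¹ * (-(1 / 2)) = -(1 / 2) / ((t : ℂ) * I - x / 2) := by
      rw [mul_comm, ← div_eq_mul_inv]
    rw [e] at h2
    exact h2
  have hb : ∀ x ∈ Ico (0 : ℝ) 1, ‖-(1 / 2) / ((t : ℂ) * I - x / 2)‖ ≤ 1 / (2 * t) := by
    intro x _
    have h1 : t ≤ ‖(t : ℂ) * I - x / 2‖ := by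
      have := Complex.abs_im_le_norm ((t : ℂ) * I - x / 2)
      rw [him, abs_of_pos ht] at this
      exact this
    rw [norm_div, norm_neg]
    have h2 : ‖(1 / 2 : ℂ)‖ = 1 / 2 := by simp
    rw [h2, div_div]
    refine div_le_div_of_nonneg_left zero_le_one (by positivity) ?_
    linarith
  have := norm_image_sub_le_of_norm_deriv_le_segment_01' (f := f)
    (f' := fun x => -(1 / 2) / ((t : ℂ) * I - x / 2)) (fun x _ => (hd x).hasDerivWithinAt) hb
  have h1 : f 1 = Complex.log (lp t) := by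
    rw [hf, H74.LI.lp]
    simp only
    congr 1
    push_cast
    ring
  have h0 : f 0 = Real.log t + Real.pi / 2 * I := by
    rw [hf]
    simp only [Complex.ofReal_zero, zero_div, sub_zero]
    rw [Complex.log_ofReal_mul ht I_ne_zero, Complex.log_I]
  rwa [h1, h0] at this

theorem lp_lower {t : ℝ} (ht : 1 ≤ t) (j : ℕ) {x : ℝ} (hx0 : 0 ≤ x) :
    ((j : ℝ) + t) / 3 ≤ ‖lp t + j + x‖ := by
  have e : lp t + j + x = ((j + x - 1 / 2 : ℝ) : ℂ) + t * I := by
    rw [H74.LI.lp]; push_cast; ring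
  rw [e]
  have h1 : ‖(((j : ℝ) + x - 1 / 2 : ℝ) : ℂ) + t * I‖ =
      Real.sqrt (((j : ℝ) + x - 1 / 2) ^ 2 + t ^ 2) := Complex.norm_add_mul_I _ _
  rw [h1]
  refine Real.le_sqrt_of_sq_le ?_
  rcases Nat.eq_zero_or_pos j with rfl | hj
  · push_cast
    nlinarith [sq_nonneg ((0 : ℝ) + x - 1 / 2)]
  · have hj1 : (1 : ℝ) ≤ j := by exact_mod_cast hj
    nlinarith [sq_nonneg ((j : ℝ) - t), mul_nonneg hx0 hx0, mul_nonneg hx0 (by linarith : (0:ℝ) ≤ j - 1/2)]

theorem sum_sq_le {t : ℝ} (ht : 1 ≤ t) (n : ℕ) :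
    ∑ j ∈ Finset.range n, 1 / ((j : ℝ) + t) ^ 2 ≤ 1 / (t - 1 / 2) - 1 / (n + t - 1 / 2) := by
  induction n with
  | zero => simp
  | succ n ih =>
    rw [Finset.sum_range_succ]
    have hn : (0 : ℝ) ≤ n := Nat.cast_nonneg n
    have h1 : 1 / ((n : ℝ) + t) ^ 2 ≤ 1 / (n + t - 1 / 2) - 1 / ((n + 1 : ℕ) + t - 1 / 2) := by
      push_cast
      have a1 : (0 : ℝ) < n + t - 1 / 2 := by linarith
      have a2 : (0 : ℝ) < n + 1 + t - 1 / 2 := by linarith
      rw [div_sub_div _ _ a1.ne' a2.ne', div_le_div_iff₀ (by positivity) (by positivity)]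
      nlinarith
    linarith

theorem sum_sq_le' {t : ℝ} (ht : 1 ≤ t) (n : ℕ) :
    ∑ j ∈ Finset.range n, 1 / ((j : ℝ) + t) ^ 2 ≤ 2 / t := by
  refine (sum_sq_le ht n).trans ?_
  have hn : (0 : ℝ) ≤ n := Nat.cast_nonneg n
  have h1 : (0 : ℝ) ≤ 1 / (n + t - 1 / 2) := by
    apply div_nonneg zero_le_one
    linarith
  have h2 : 1 / (t - 1 / 2) ≤ 2 / t := by
    rw [div_le_div_iff₀ (by linarith) (by linarith)]
    linarith
  linarith

/-- the error terms -/
noncomputable def ej (δ w : ℂ) (j : ℕ) : ℂ :=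
  δ * (Complex.log (w + j + 1) - Complex.log (w + j)) - Complex.log (1 + δ / (w + j))

theorem norm_ej {δ : ℂ} {t : ℝ} (ht : 1 ≤ t) (ht2 : 6 * ‖δ‖ ≤ t) (j : ℕ) :
    ‖ej δ (lp t) j‖ ≤ (9 * ‖δ‖ + 9 * ‖δ‖ ^ 2) * (1 / ((j : ℝ) + t) ^ 2) := by
  have hj : (0 : ℝ) ≤ j := Nat.cast_nonneg j
  have him : (lp t + j).im = t := by simp [H74.LI.lp]
  have hjt : (0 : ℝ) < (j + t) / 3 := by positivity
  have h1 := log_step (z := lp t + j) (m := (j + t) / 3) (by rw [him]; linarith) hjt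
    (fun x hx _ => lp_lower ht j hx)
  have hlow := lp_lower ht j (x := 0) le_rfl
  rw [Complex.ofReal_zero, add_zero] at hlow
  have hw0 : lp t + j ≠ 0 := by
    intro h0
    rw [h0, norm_zero] at hlow
    linarith
  have hz : ‖δ / (lp t + j)‖ ≤ 1 / 2 := by
    rw [norm_div, div_le_iff₀ (by linarith)]
    linarith
  have hz' : ‖δ / (lp t + j)‖ < 1 := by linarith
  have h2 := Complex.norm_log_one_add_sub_self_le hz'
  have e : ej δ (lp t) j = δ * (Complex.log (lp t + j + 1) - Complex.log (lp t + j) -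
      1 / (lp t + j)) - (Complex.log (1 + δ / (lp t + j)) - δ / (lp t + j)) := by
    rw [ej]
    field_simp
    ring
  rw [e]
  refine (norm_sub_le _ _).trans ?_
  rw [norm_mul]
  have h3 : ‖δ‖ * ‖Complex.log (lp t + j + 1) - Complex.log (lp t + j) - 1 / (lp t + j)‖ ≤
      9 * ‖δ‖ * (1 / ((j : ℝ) + t) ^ 2) := by
    refine (mul_le_mul_of_nonneg_left h1 (norm_nonneg _)).trans (le_of_eq ?_)
    rw [div_pow]
    field_simp
    norm_num
  have h4 : ‖δ / (lp t + j)‖ ^ 2 ≤ 9 * ‖δ‖ ^ 2 * (1 / ((j : ℝ) + t) ^ 2) := by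
    rw [norm_div, div_pow]
    have h5 : ‖δ‖ ^ 2 / ‖lp t + j‖ ^ 2 ≤ ‖δ‖ ^ 2 / ((j + t) / 3) ^ 2 := by
      refine div_le_div_of_nonneg_left (sq_nonneg _) (by positivity) ?_
      exact pow_le_pow_left₀ hjt.le hlow 2
    refine h5.trans (le_of_eq ?_)
    rw [div_pow]
    field_simp
    norm_num
  have h5 : ‖δ / (lp t + j)‖ ^ 2 * (1 - ‖δ / (lp t + j)‖)⁻¹ / 2 ≤ ‖δ / (lp t + j)‖ ^ 2 := by
    have h6 : (1 - ‖δ / (lp t + j)‖)⁻¹ ≤ 2 := by
      rw [inv_le_comm₀ (by linarith) (by norm_num)]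
      linarith
    nlinarith [sq_nonneg ‖δ / (lp t + j)‖]
  linarith [h2.trans h5]

theorem sum_ej_summable {δ : ℂ} {t : ℝ} (ht : 1 ≤ t) (ht2 : 6 * ‖δ‖ ≤ t) :
    Summable (ej δ (lp t)) ∧ ‖∑' j, ej δ (lp t) j‖ ≤ (9 * ‖δ‖ + 9 * ‖δ‖ ^ 2) * (2 / t) := by
  have hs : Summable fun j : ℕ => 1 / ((j : ℝ) + t) ^ 2 :=
    summable_of_sum_range_le (c := 2 / t) (fun j => by positivity) (sum_sq_le' ht)
  have hs2 := hs.mul_left (9 * ‖δ‖ + 9 * ‖δ‖ ^ 2)
  refine ⟨Summable.of_norm_bounded hs2 (norm_ej ht ht2), ?_⟩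
  refine (tsum_of_norm_bounded hs2.hasSum (norm_ej ht ht2)).trans ?_
  rw [tsum_mul_left]
  refine mul_le_mul_of_nonneg_left ?_ (by positivity)
  exact Summable.tsum_le_of_sum_range_le hs (sum_sq_le' ht)

theorem GammaSeq_quot {δ : ℂ} {t : ℝ} (ht : 1 ≤ t) (ht2 : 6 * ‖δ‖ ≤ t) {n : ℕ} (hn : n ≠ 0) :
    GammaSeq (lp t + δ) n = GammaSeq (lp t) n * cexp (δ * Complex.log (lp t) +
      δ * (Real.log n - Complex.log (lp t + (n + 1 : ℕ))) + ∑ j ∈ Finset.range (n + 1), ej δ (lp t) j) := by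
  have hw0 : ∀ j : ℕ, lp t + j ≠ 0 := by
    intro j h0
    have hlow := lp_lower ht j (x := 0) le_rfl
    rw [Complex.ofReal_zero, add_zero, h0, norm_zero] at hlow
    have hj : (0 : ℝ) ≤ j := Nat.cast_nonneg j
    linarith
  have hz : ∀ j : ℕ, ‖δ / (lp t + j)‖ < 1 := by
    intro j
    have hlow := lp_lower ht j (x := 0) le_rfl
    rw [Complex.ofReal_zero, add_zero] at hlow
    have hj : (0 : ℝ) ≤ j := Nat.cast_nonneg j
    rw [norm_div, div_lt_iff₀ (by linarith)]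
    linarith
  have hz1 : ∀ j : ℕ, 1 + δ / (lp t + j) ≠ 0 := by
    intro j h0
    have h1 : δ / (lp t + j) = -1 := by linear_combination h0
    have h2 := hz j
    rw [h1] at h2
    simp at h2
  -- the telescoping sum
  have htel : ∑ j ∈ Finset.range (n + 1), ej δ (lp t) j =
      δ * (Complex.log (lp t + (n + 1 : ℕ)) - Complex.log (lp t)) -
        ∑ j ∈ Finset.range (n + 1), Complex.log (1 + δ / (lp t + j)) := by
    have h1 : ∑ j ∈ Finset.range (n + 1), ej δ (lp t) j =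
        δ * (∑ j ∈ Finset.range (n + 1), (Complex.log (lp t + (j + 1 : ℕ)) -
          Complex.log (lp t + j))) - ∑ j ∈ Finset.range (n + 1), Complex.log (1 + δ / (lp t + j)) := by
      rw [Finset.mul_sum, ← Finset.sum_sub_distrib]
      refine Finset.sum_congr rfl fun j _ => ?_
      rw [ej]
      push_cast
      rw [add_assoc]
    rw [h1, Finset.sum_range_sub (fun j : ℕ => Complex.log (lp t + j))]
    push_cast
    rw [add_zero]
  have hexp : δ * Complex.log (lp t) + δ * (Real.log n - Complex.log (lp t + (n + 1 : ℕ))) +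
      ∑ j ∈ Finset.range (n + 1), ej δ (lp t) j =
      δ * Real.log n - ∑ j ∈ Finset.range (n + 1), Complex.log (1 + δ / (lp t + j)) := by
    rw [htel]; ring
  rw [hexp, Complex.exp_sub, Complex.exp_sum]
  have hprod : ∏ j ∈ Finset.range (n + 1), cexp (Complex.log (1 + δ / (lp t + j))) =
      (∏ j ∈ Finset.range (n + 1), (lp t + δ + j)) / ∏ j ∈ Finset.range (n + 1), (lp t + j) := by
    rw [← Finset.prod_div_distrib]
    refine Finset.prod_congr rfl fun j _ => ?_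
    rw [Complex.exp_log (hz1 j)]
    have := hw0 j
    field_simp
    ring
  rw [hprod]
  have hn0 : (n : ℂ) ≠ 0 := by exact_mod_cast hn
  have hpow : (n : ℂ) ^ (lp t + δ) = (n : ℂ) ^ (lp t) * cexp (δ * Real.log n) := by
    rw [Complex.cpow_add _ _ hn0]
    congr 1
    rw [Complex.cpow_def_of_ne_zero hn0, ← Complex.natCast_log, mul_comm]
  have hP : ∏ j ∈ Finset.range (n + 1), (lp t + j) ≠ 0 :=
    Finset.prod_ne_zero_iff.2 fun j _ => hw0 j
  have hP2 : ∏ j ∈ Finset.range (n + 1), (lp t + δ + j) ≠ 0 := by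
    refine Finset.prod_ne_zero_iff.2 fun j _ h0 => hz1 j ?_
    have := hw0 j
    field_simp
    linear_combination h0
  rw [GammaSeq, GammaSeq, hpow]
  field_simp

theorem Gamma_quot {δ : ℂ} {t : ℝ} (ht : 1 ≤ t) (ht2 : 6 * ‖δ‖ ≤ t) :
    Gamma (lp t + δ) = Gamma (lp t) * cexp (δ * Complex.log (lp t) + ∑' j, ej δ (lp t) j) := by
  obtain ⟨hs, _⟩ := sum_ej_summable ht ht2
  have h1 : Tendsto (GammaSeq (lp t + δ)) atTop (𝓝 (Gamma (lp t + δ))) := GammaSeq_tendsto_Gamma _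
  have h2 : Tendsto (GammaSeq (lp t)) atTop (𝓝 (Gamma (lp t))) := GammaSeq_tendsto_Gamma _
  have h3 : Tendsto (fun n : ℕ => ∑ j ∈ Finset.range (n + 1), ej δ (lp t) j) atTop
      (𝓝 (∑' j, ej δ (lp t) j)) := (tendsto_add_atTop_iff_nat 1).2 hs.hasSum.tendsto_sum_nat
  have h4 : Tendsto (fun n : ℕ => ((Real.log n : ℂ) - Complex.log (lp t + (n + 1 : ℕ)))) atTop
      (𝓝 0) := by
    have h5 : Tendsto (fun n : ℕ => (1 : ℂ) + (lp t + 1) / (n : ℂ)) atTop (𝓝 (1 + 0)) := by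
      refine tendsto_const_nhds.add ?_
      have h51 := (tendsto_inv_atTop_nhds_zero_nat (𝕜 := ℂ)).const_mul (lp t + 1)
      rw [mul_zero] at h51
      exact h51
    rw [add_zero] at h5
    have h6 : Tendsto (fun n : ℕ => -Complex.log ((1 : ℂ) + (lp t + 1) / (n : ℂ))) atTop (𝓝 0) := by
      have h7 : ContinuousAt Complex.log 1 := continuousAt_clog (by simp [Complex.mem_slitPlane_iff])
      have h8 := (h7.tendsto.comp h5).neg
      rw [Complex.log_one, neg_zero] at h8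
      exact h8
    refine h6.congr' ?_
    filter_upwards [eventually_ne_atTop 0] with n hn
    have hn0 : (0 : ℝ) < n := by exact_mod_cast Nat.pos_of_ne_zero hn
    have hne : (1 : ℂ) + (lp t + 1) / (n : ℂ) ≠ 0 := by
      intro h0
      have hnc : (n : ℂ) ≠ 0 := by exact_mod_cast hn
      have h9 : (n : ℂ) + (lp t + 1) = 0 := by
        field_simp at h0
        linear_combination h0
      have h10 := congrArg Complex.im h9
      simp [H74.LI.lp] at h10
      linarith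
    have h9 := Complex.log_ofReal_mul hn0 hne
    have h10 : ((n : ℝ) : ℂ) * (1 + (lp t + 1) / (n : ℂ)) = lp t + (n + 1 : ℕ) := by
      have hnc : (n : ℂ) ≠ 0 := by exact_mod_cast hn
      push_cast
      field_simp
      ring
    rw [h10] at h9
    rw [h9]
    ring
  have h5 : Tendsto (fun n : ℕ => GammaSeq (lp t) n * cexp (δ * Complex.log (lp t) +
      δ * (Real.log n - Complex.log (lp t + (n + 1 : ℕ))) +
        ∑ j ∈ Finset.range (n + 1), ej δ (lp t) j)) atTop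
      (𝓝 (Gamma (lp t) * cexp (δ * Complex.log (lp t) + δ * 0 + ∑' j, ej δ (lp t) j))) := by
    refine h2.mul ?_
    refine (Complex.continuous_exp.tendsto _).comp ?_
    exact (tendsto_const_nhds.add (tendsto_const_nhds.mul h4)).add h3
  rw [mul_zero, add_zero] at h5
  refine tendsto_nhds_unique h1 (h5.congr' ?_)
  filter_upwards [eventually_ne_atTop 0] with n hn
  exact (GammaSeq_quot ht ht2 hn).symm

theorem st : T_stir := by
  intro δ
  obtain ⟨C, hC⟩ : ∃ C : ℝ, C = ‖δ‖ / 2 + (9 * ‖δ‖ + 9 * ‖δ‖ ^ 2) * 2 := ⟨_, rfl⟩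
  have hC0 : 0 ≤ C := by rw [hC]; positivity
  refine ⟨2 * C, 1 + 6 * ‖δ‖ + C, by positivity, fun t ht => ?_⟩
  have hδ := norm_nonneg δ
  have ht1 : 1 ≤ t := by linarith
  have ht2 : 6 * ‖δ‖ ≤ t := by linarith
  have ht0 : 0 < t := by linarith
  have hG : Gamma (lp t) ≠ 0 := by
    refine Complex.Gamma_ne_zero fun m h0 => ?_
    have := congrArg Complex.im h0
    simp [H74.LI.lp] at this
    linarith
  obtain ⟨_, hS⟩ := sum_ej_summable ht1 ht2
  obtain ⟨E, hE⟩ : ∃ E : ℂ, E = δ * (Complex.log (lp t) - (Real.log t + Real.pi / 2 * I)) +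
    ∑' j, ej δ (lp t) j := ⟨_, rfl⟩
  have hquot : Gamma (lp t + δ) / (Gamma (lp t) * cexp (δ * (Real.log t + Real.pi / 2 * I))) =
      cexp E := by
    rw [Gamma_quot ht1 ht2, mul_div_mul_left _ _ hG, ← Complex.exp_sub, hE]
    congr 1
    ring
  change ‖Gamma (lp t + δ) / (Gamma (lp t) * cexp (δ * (Real.log t + Real.pi / 2 * I))) - 1‖ ≤ _
  rw [hquot]
  have hEn : ‖E‖ ≤ C / t := by
    rw [hE]
    refine (norm_add_le _ _).trans ?_
    rw [norm_mul]
    have h1 := mul_le_mul_of_nonneg_left (log_lp ht0) hδ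
    have h2 : C / t = ‖δ‖ * (1 / (2 * t)) + (9 * ‖δ‖ + 9 * ‖δ‖ ^ 2) * (2 / t) := by
      rw [hC]
      field_simp
    rw [h2]
    exact add_le_add h1 hS
  have hE1 : ‖E‖ ≤ 1 := by
    refine hEn.trans ?_
    rw [div_le_one ht0]
    linarith
  have h1 := Complex.norm_exp_sub_one_le hE1
  refine h1.trans ?_
  rw [mul_div_assoc]
  linarith

end Pool.Agent.H27.LI
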